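import Pool.Agent.R601.BL.Main

set_option autoImplicit false

/-!
# `Δ¹₁`-comprehension does not imply `Σ¹₁`-choice over Basic Law V

The definitions are in `Pool/Agent/R601/BL/Defs.lean`: formulas `Fm` of the many-sorted language
with a sort of objects, sorts of relations of all arities and the function `∂` from unary relations
to objects, structures `Str M` (families `S k` of relations of arity `k + 1` and the function `∂`),
satisfaction, the arithmetical, `Σ¹₁`- and `Π¹₁`-formulas, Basic Law V, the comprehension schemata
and `Σ¹₁`-choice, all with parameters.

The structure is built in two steps.  First, on the countable set `M0` of objects `o_i`, `a_{i,0}`,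
`a_{i,1}` and others, on which the group `G` of all functions from the natural numbers to `ZMod 2`
acts, there is an increasing sequence of families `S l` of relations, each relation of `S l` fixed
by all elements of `G` which vanish below some number, such that `S (l + 1)` contains all relations
which are definable over `S l` with parameters, and an equivariant function `∂` which is injective
on all unary relations which belong to some `S l`.  Second, the union over `l` of the internal
families `S l` in the ultrapower of `M0` with respect to a nonprincipal ultrafilter on the natural
numbers is a structure with `Δ¹₁`-comprehension: if a `Σ¹₁`-formula is equivalent to a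
`Π¹₁`-formula, then by countable saturation all witnesses can be found in one family `S l`, and the
relation which they define is in `S (l + 1)`.  The instance of choice which fails is: for all `x`
there is a set `X` which is a singleton `{y}` with `F(x, y)` if there is `y` with `F(x, y)`, where
`F` is the relation which holds for `o_i` and `a_{i,0}`, and for `o_i` and `a_{i,1}`.
-/

namespace Pool.Agent.Results.MP_4cf54b_lc.ChoiceNotFromDelta

open Pool.Agent.R601.BL

/-- There is a structure which satisfies `Δ¹₁-BL₀` (Basic Law V, arithmetical comprehension and
`Δ¹₁`-comprehension) and in which an instance of the schema of `Σ¹₁`-choice fails.  Hence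
`Δ¹₁-BL₀` does not imply `Σ¹₁-LB₀`. -/
theorem result : ∃ (M : Type) (𝔖 : Str M), DeltaBL0 𝔖 ∧ ¬ SigmaChoice 𝔖 := main

end Pool.Agent.Results.MP_4cf54b_lc.ChoiceNotFromDelta
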